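import Pool.Agent.helper14.NS.Cert

/-!
Generated: table Q150e.
-/

namespace Pool.Agent.helper14.NS.Q150e

open Pool.Agent.helper63.NF Pool.Agent.helper4.NS

def tab : TD where
  strip := false
  bm := none
  ec := 6408896512
  bc := 3298534883328
  H := [[[-663353472, 9127838784, -510602816, -347700032], [-1544421718400, -568556501824], [53319434262400]], [[-418589376, -904608704, 198053056], [287394368320, 90036628096]], [[146932928, 41506560, -29902080], [-18572193216]], [[-17343040, 626496], [341122112]], [[1100288, -45312]], [[-35392]], [[448]]]
  pol := some ⟨-1607928381440, -137937169678336, 5872294035456, 31362867265536, [[-30516552576, -36206985472], [-4540809214464, 0]], [[363796155904, -118351301120], [84821926910016, 0]]⟩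
  a := [[[417623638016, -1370095616, 1474166784, -309985280], [3124016644096, 1004188270592]], [[55592878080, 388890624, 8889892864, -2659778560], [4064090980352, 3504884154368]], [[41952346112, 5890506752, 5080809472, -7881228288], [609863467008, 2504405090304]], [[38545719296, 6998523904, 3395289088, -8792375296], [-242368446464, 2427552858112]], [[40078409728, 7513112576, 3879075840, -9367519232], [-282675052544, 3019703975936]]]
  j := [1374389534720, 17042430230528, 12094627905536, 11819749998592, 15118284881920]
  c := [879662989312, 439697276928, 329907175424, 219848638464, 164819369984]
  M := [[[[1100718604288, -766902272, -337248256], [172502286336, 769703346176], [136202342301696]], [[21571239936, 7554662400], [5084065234944]], [[72876032, -15758721024], [1270926475264]], [[66469232640]], [[-87542923264]], [[72438513664]]], [[[1102632124416, 1182400512, 358612992], [740970397696]], [[3204907008, 79888384], [564484308992]], [[-29753344]], [[1114112]]], [[[1102427258880, 875298816, 127205376], [517774704640]], [[3065053184, 102039552], [542149246976]], [[-5898240]], [[262144]]], [[[1102693597184, 874971136, -104988672], [326449299456]], [[2977366016, 52690944], [526266925056]], [[18350080]], [[-589824]]], [[[1102351761408,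 1133510656, -66519040], [294908198912]], [[3003973632, 34799616], [567964073984]], [[19005440]], [[-655360]]]]
  l0 := [[[3616276492160, 112787062208], [26380950519360]], [[1637628302272, -45421321728], [-46406915163968]], [[537354486784, -241394193088], [-25280923039168]], [[202967095104, 367595042752], [-17432650189312]], [[1054835836608, -112823026880], [21990413800512]], [[-2098509999168, -176231338368], [-121025853942784]], [[4783229879040]], [[-11644939816704]], [[16063589793280]], [[-22213301401472]], [[14894237693312]], [[-11279166794240]]]
  q0 := [[78707927104, 29014316288, 1953165312], [14234485735040, 6151844516608], [103362247430464]]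
  t := [[[1069146308608, -355548594176, -21485780992, 105574957056], [-6770340331520, 13197863616512]], [[298919788544, 12342067200, -1804468224, 2319581184], [25793335394304, 12966221316096]], [[283119321088, 25136332800, -8736079872, -4123656192], [21340235825152, 12255513673728]], [[280985075712, 33941618688, -11009720320, -8941928448], [17664589234176, 11559505952768]], [[289056751616, 33123008512, -7755530240, -13498253312], [11387373748224, 15174091341824]]]
  y := [9977209028608, 12576737984512, 14989435863040, 17178795442176, 19104014532608]
  sc := [0, 0, 0, 0, 0]
  L := [(0, 2), (0, 3), (1, 1), (2, 0)]
  Lt := [(0, 2), (0, 3), (1, 1)]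
  far := 4
  x2 := 10885165744128
  B1 := 1979120091136
  C2 := 1708879162368
  f1 := 0
  f2 := 0
  f3 := 0
  is1 := 8796093022208
  s1 := 137438953472

end Pool.Agent.helper14.NS.Q150e
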